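import Pool.Agent.QSB.StmtsT

/-!
# Squad QSB (MP_dc0713_gt), row SYC: complexifications are data of symmetric spaces
-/

set_option autoImplicit false

namespace Pool.Agent.QSB.H6

open Matrix Finset Pool.Agent.QSX Pool.Agent.QSN

section

variable {n : ℕ}

theorem syc_00 (x y : Matrix (Fin n) (Fin n) ℝ) (i i' : Fin n) : cx x y i i' 0 0 = x i i' := by
  rw [cx_apply]
  simp [jj]

theorem syc_11 (x y : Matrix (Fin n) (Fin n) ℝ) (i i' : Fin n) : cx x y i i' 1 1 = x i i' := by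
  rw [cx_apply]
  simp [jj]

theorem syc_10 (x y : Matrix (Fin n) (Fin n) ℝ) (i i' : Fin n) : cx x y i i' 1 0 = y i i' := by
  rw [cx_apply]
  simp [jj]

theorem syc_01 (x y : Matrix (Fin n) (Fin n) ℝ) (i i' : Fin n) : cx x y i i' 0 1 = - y i i' := by
  rw [cx_apply]
  simp [jj]

theorem syc_tr (x y : Matrix (Fin n) (Fin n) ℝ) :
    (blk 2 n (cx x y))ᵀ = blk 2 n (cx xᵀ (-yᵀ)) := by
  apply blk_ext
  intro i i' j j'
  rw [Matrix.transpose_apply, blk_apply, blk_apply]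
  fin_cases j <;> fin_cases j'
  · show cx x y i' i 0 0 = cx xᵀ (-yᵀ) i i' 0 0
    rw [syc_00, syc_00, Matrix.transpose_apply]
  · show cx x y i' i 1 0 = cx xᵀ (-yᵀ) i i' 0 1
    rw [syc_10, syc_01, Matrix.neg_apply, Matrix.transpose_apply, neg_neg]
  · show cx x y i' i 0 1 = cx xᵀ (-yᵀ) i i' 1 0
    rw [syc_01, syc_10, Matrix.neg_apply, Matrix.transpose_apply]
  · show cx x y i' i 1 1 = cx xᵀ (-yᵀ) i i' 1 1
    rw [syc_11, syc_11, Matrix.transpose_apply]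

end

/-- the Lie algebra `g + i g` -/
noncomputable def sycG {X : Dat} (S : Sym X) :
    Submodule ℝ (Matrix (Fin (X.m * 2)) (Fin (X.m * 2)) ℝ) where
  carrier := {z | ∃ x ∈ S.g, ∃ y ∈ S.g, z = blk 2 X.m (cx x y)}
  add_mem' := by
    rintro _ _ ⟨x, hx, y, hy, rfl⟩ ⟨x', hx', y', hy', rfl⟩
    exact ⟨_, S.g.add_mem hx hx', _, S.g.add_mem hy hy', by rw [← map_add, cx_add]⟩
  zero_mem' := ⟨0, S.g.zero_mem, 0, S.g.zero_mem, by rw [cx_zero, map_zero]⟩
  smul_mem' := by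
    rintro r _ ⟨x, hx, y, hy, rfl⟩
    exact ⟨_, S.g.smul_mem r hx, _, S.g.smul_mem r hy, by rw [← map_smul, cx_smul]⟩

theorem syc_lie {X : Dat} (S : Sym X) :
    ∀ z ∈ sycG S, ∀ z' ∈ sycG S, z * z' - z' * z ∈ sycG S := by
  rintro _ ⟨x, hx, y, hy, rfl⟩ _ ⟨x', hx', y', hy', rfl⟩
  refine ⟨(x * x' - x' * x) - (y * y' - y' * y),
    S.g.sub_mem (S.lie x hx x' hx') (S.lie y hy y' hy'),
    (x * y' - y' * x) + (y * x' - x' * y),
    S.g.add_mem (S.lie x hx y' hy') (S.lie y hy x' hx'), ?_⟩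
  rw [← map_mul, ← map_mul, ← map_sub, cx_mul, cx_mul, cx_sub]
  congr 2 <;> abel

theorem syc_b {X : Dat} (S : Sym X) (c : Fin (X.m * 2) → ℝ) :
    c ∈ X.bC ↔ diagonal c ∈ sycG S := by
  constructor
  · rintro ⟨d, hd, rfl⟩
    refine ⟨diagonal d, (S.b_mem d).1 hd, 0, S.g.zero_mem, ?_⟩
    rw [← dia_cx, blk_dia]
  · rintro ⟨x, hx, y, _, h⟩
    have hxd : x = diagonal fun i => x i i := by
      ext i i'
      by_cases hi : i = i'
      · subst hi
        rw [diagonal_apply_eq]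
      · have e : x i i' = blk 2 X.m (cx x y) (finProdFinEquiv (i, 0)) (finProdFinEquiv (i', 0)) := by
          rw [blk_apply, syc_00]
        rw [diagonal_apply_ne _ hi, e, ← h, diagonal_apply_ne]
        intro h2
        exact hi (Prod.ext_iff.1 (finProdFinEquiv.injective h2)).1
    refine ⟨fun i => x i i, (S.b_mem _).2 (hxd ▸ hx), ?_⟩
    funext p
    obtain ⟨⟨i, j⟩, rfl⟩ := finProdFinEquiv.surjective p
    have h1 : c (finProdFinEquiv (i, j)) = cx x y i i j j := by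
      have e : cx x y i i j j =
          blk 2 X.m (cx x y) (finProdFinEquiv (i, j)) (finProdFinEquiv (i, j)) := by
        rw [blk_apply]
      rw [e, ← h, diagonal_apply_eq]
    rw [h1, cst_apply]
    fin_cases j
    · exact syc_00 x y i i
    · exact syc_11 x y i i

theorem syc_n {X : Dat} (S : Sym X) (z : Matrix (Fin (X.m * 2)) (Fin (X.m * 2)) ℝ) :
    z ∈ X.nC ↔ z ∈ sycG S ∧ ∀ p q, z p q ≠ 0 → cst 2 X.m S.a₀ q < cst 2 X.m S.a₀ p := by
  constructor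
  · rintro ⟨x, hx, y, hy, rfl⟩
    obtain ⟨gx, ax⟩ := (S.n_mem x).1 hx
    obtain ⟨gy, ay⟩ := (S.n_mem y).1 hy
    refine ⟨⟨x, gx, y, gy, rfl⟩, ?_⟩
    intro p q hpq
    obtain ⟨⟨i, j⟩, rfl⟩ := finProdFinEquiv.surjective p
    obtain ⟨⟨i', j'⟩, rfl⟩ := finProdFinEquiv.surjective q
    rw [blk_apply, cx_apply] at hpq
    rw [cst_apply, cst_apply]
    by_cases h1 : x i i' = 0
    · by_cases h2 : y i i' = 0
      · exfalso
        apply hpq
        rw [h1, h2, zero_smul, zero_smul, add_zero, Matrix.zero_apply]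
      · exact ay i i' h2
    · exact ax i i' h1
  · rintro ⟨⟨x, gx, y, gy, rfl⟩, h⟩
    refine ⟨x, (S.n_mem x).2 ⟨gx, ?_⟩, y, (S.n_mem y).2 ⟨gy, ?_⟩, rfl⟩
    · intro i i' hi
      have h1 := h (finProdFinEquiv (i, 0)) (finProdFinEquiv (i', 0)) (by
        rw [blk_apply, syc_00]; exact hi)
      rw [cst_apply, cst_apply] at h1
      exact h1
    · intro i i' hi
      have h1 := h (finProdFinEquiv (i, 1)) (finProdFinEquiv (i', 0)) (by
        rw [blk_apply, syc_10]; exact hi)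
      rw [cst_apply, cst_apply] at h1
      exact h1

theorem syc_reg {X : Dat} (S : Sym X) (H : ∀ y ∈ S.g, yᵀ = -y →
    diagonal (S.a₀ : Fin X.m → ℝ) * y = y * diagonal (S.a₀ : Fin X.m → ℝ) → y = 0) :
    ∀ z ∈ sycG S, zᵀ = z →
      diagonal (cst 2 X.m S.a₀) * z = z * diagonal (cst 2 X.m S.a₀) → ∃ c, z = diagonal c := by
  rintro _ ⟨x, gx, y, gy, rfl⟩ ht hc
  rw [syc_tr] at ht
  obtain ⟨h1, h2⟩ := cx_inj ((blk 2 X.m).injective ht)
  rw [← blk_dia, dia_cx, ← map_mul, ← map_mul, cx_mul, cx_mul] at hc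
  obtain ⟨h3, h4⟩ := cx_inj ((blk 2 X.m).injective hc)
  rw [zero_mul, mul_zero, sub_zero, sub_zero] at h3
  rw [zero_mul, mul_zero, add_zero, zero_add] at h4
  obtain ⟨c, hcx⟩ := S.reg x gx h1 h3
  have hy : y = 0 := H y gy (neg_eq_iff_eq_neg.1 h2) h4
  refine ⟨cst 2 X.m c, ?_⟩
  rw [hcx, hy, ← dia_cx, blk_dia]

theorem syc : SycStmt := by
  intro X S H
  exact ⟨{ g := sycG S
           lie := syc_lie S
           tr := by
             rintro _ ⟨x, hx, y, hy, rfl⟩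
             exact ⟨xᵀ, S.tr x hx, -yᵀ, S.g.neg_mem (S.tr y hy), syc_tr x y⟩
           b_mem := syc_b S
           a₀ := ⟨cst 2 X.m S.a₀, S.a₀, S.a₀.2, rfl⟩
           n_mem := syc_n S
           reg := syc_reg S H }⟩

end Pool.Agent.QSB.H6
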